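import Pool.Agent.Helper33.SY.Column

/-!
# The mean value of the number of primitive points over lattices of given covolume

For two bounded convex sets around the origin, some lattice of covolume `D` has few primitive points in them.
-/

set_option autoImplicit false

namespace Pool.Agent.Helper4.SY

open MeasureTheory Filter Topology Finset
open Pool.Agent.Helper59.Pack Pool.Agent.Helper33.SY
open scoped Pointwise

/-- an integer vector -/
def iv (v : ℤ × ℤ) : P2 := ![(v.1 : ℝ), (v.2 : ℝ)]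

theorem iv_zero : iv 0 = 0 := by
  unfold iv
  funext i
  fin_cases i <;> simp

theorem iv_inj : Function.Injective iv := by
  intro v w h
  have h0 := congrFun h 0
  have h1 := congrFun h 1
  simp only [iv, Matrix.cons_val_zero, Matrix.cons_val_one] at h0 h1
  apply Prod.ext
  · exact_mod_cast h0
  · exact_mod_cast h1

/-- the nonzero integer points of the dilated set -/
def W (A : Set P2) (x : ℝ) : Set (ℤ × ℤ) := {v | v ≠ 0 ∧ x⁻¹ • iv v ∈ A}

/-- the primitive integer points of the dilated set -/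
def Pr (A : Set P2) (x : ℝ) : Set (ℤ × ℤ) := {v | IsCoprime v.1 v.2 ∧ x⁻¹ • iv v ∈ A}

theorem bd_of_mem {A : Set P2} {R x : ℝ} (hA : ∀ y ∈ A, ∀ i, |y i| ≤ R) (hx : 0 < x) {v : ℤ × ℤ}
    (hv : x⁻¹ • iv v ∈ A) : |(v.1 : ℝ)| ≤ R * x ∧ |(v.2 : ℝ)| ≤ R * x := by
  have h0 := hA _ hv 0
  have h1 := hA _ hv 1
  simp only [iv, Pi.smul_apply, Matrix.cons_val_zero, Matrix.cons_val_one, smul_eq_mul, abs_mul, abs_inv,
    abs_of_pos hx] at h0 h1
  rw [inv_mul_le_iff₀ hx] at h0 h1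
  constructor <;> linarith

/-- a box of integer points -/
noncomputable def box (n : ℕ) : Finset (ℤ × ℤ) := (Finset.Icc (-(n : ℤ)) n) ×ˢ (Finset.Icc (-(n : ℤ)) n)

theorem card_box (n : ℕ) : (box n).card = (2 * n + 1) ^ 2 := by
  unfold box
  rw [Finset.card_product, Int.card_Icc]
  have : ((n : ℤ) + 1 - -(n : ℤ)).toNat = 2 * n + 1 := by omega
  rw [this]
  ring

theorem mem_box {R x : ℝ} {v : ℤ × ℤ} (hv : |(v.1 : ℝ)| ≤ R * x ∧ |(v.2 : ℝ)| ≤ R * x) : v ∈ box ⌊R * x⌋₊ := by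
  have key : ∀ m : ℤ, |(m : ℝ)| ≤ R * x → m ∈ Finset.Icc (-((⌊R * x⌋₊ : ℕ) : ℤ)) ((⌊R * x⌋₊ : ℕ) : ℤ) := by
    intro m hm
    have h1 : m.natAbs ≤ ⌊R * x⌋₊ := by
      apply Nat.le_floor
      have : ((m.natAbs : ℕ) : ℝ) = |(m : ℝ)| := by
        rw [Nat.cast_natAbs, Int.cast_abs]
      rw [this]
      exact hm
    rw [Finset.mem_Icc]
    omega
  unfold box
  rw [Finset.mem_product]
  exact ⟨key _ hv.1, key _ hv.2⟩

theorem W_sub {A : Set P2} {R x : ℝ} (hA : ∀ y ∈ A, ∀ i, |y i| ≤ R) (hx : 0 < x) :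
    W A x ⊆ (box ⌊R * x⌋₊ : Set (ℤ × ℤ)) := fun _ hv => mem_box (bd_of_mem hA hx hv.2)

theorem W_fin {A : Set P2} {R x : ℝ} (hA : ∀ y ∈ A, ∀ i, |y i| ≤ R) (hx : 0 < x) : (W A x).Finite :=
  (Finset.finite_toSet _).subset (W_sub hA hx)

theorem Pr_sub_W (A : Set P2) (x : ℝ) : Pr A x ⊆ W A x := by
  rintro v ⟨h1, h2⟩
  refine ⟨?_, h2⟩
  rintro rfl
  exact not_isCoprime_zero_zero h1

theorem Pr_fin {A : Set P2} {R x : ℝ} (hA : ∀ y ∈ A, ∀ i, |y i| ≤ R) (hx : 0 < x) : (Pr A x).Finite :=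
  (W_fin hA hx).subset (Pr_sub_W A x)

theorem W_card_le {A : Set P2} {R x : ℝ} (_hR : 0 ≤ R) (hA : ∀ y ∈ A, ∀ i, |y i| ≤ R) (hx : 0 < x) :
    ((W A x).ncard : ℝ) ≤ 9 * R ^ 2 * x ^ 2 := by
  rcases lt_or_ge (R * x) 1 with h | h
  · have h1 : W A x = ∅ := by
      rw [Set.eq_empty_iff_forall_notMem]
      rintro v hv
      have h2 := W_sub hA hx hv
      have h3 : ⌊R * x⌋₊ = 0 := by
        rw [Nat.floor_eq_zero]
        exact h
      rw [h3] at h2
      unfold box at h2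
      simp only [Nat.cast_zero, neg_zero, Finset.Icc_self, Finset.coe_product, Finset.coe_singleton,
        Set.singleton_prod_singleton, Set.mem_singleton_iff] at h2
      exact hv.1 h2
    rw [h1, Set.ncard_empty]
    push_cast
    positivity
  · have h1 : (W A x).ncard ≤ (2 * ⌊R * x⌋₊ + 1) ^ 2 := by
      have h2 := Set.ncard_le_ncard (W_sub hA hx) (Finset.finite_toSet _)
      rw [Set.ncard_coe_finset, card_box] at h2
      exact h2
    have h3 : ((⌊R * x⌋₊ : ℕ) : ℝ) ≤ R * x := Nat.floor_le (by positivity)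
    calc ((W A x).ncard : ℝ) ≤ ((2 * ⌊R * x⌋₊ + 1 : ℕ) : ℝ) ^ 2 := by exact_mod_cast h1
      _ ≤ (3 * (R * x)) ^ 2 := by
        push_cast
        apply pow_le_pow_left₀ (by positivity)
        linarith
      _ = 9 * R ^ 2 * x ^ 2 := by ring

/-! ### the number of integer points -/

theorem mem_L (l : P2) : l ∈ (Submodule.span ℤ (Set.range (Pi.basisFun ℝ (Fin 2)))) ↔ ∃ v, iv v = l := by
  rw [Module.Basis.mem_span_iff_repr_mem]
  constructor
  · intro h
    obtain ⟨a, ha⟩ := h 0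
    obtain ⟨b, hb⟩ := h 1
    refine ⟨(a, b), ?_⟩
    simp only [Pi.basisFun_repr, algebraMap_int_eq, eq_intCast] at ha hb
    unfold iv
    funext i
    fin_cases i
    · simpa using ha
    · simpa using hb
  · rintro ⟨v, rfl⟩ i
    fin_cases i
    · exact ⟨v.1, by simp [iv]⟩
    · exact ⟨v.2, by simp [iv]⟩

theorem card_eq {A : Set P2} {R x : ℝ} (hA : ∀ y ∈ A, ∀ i, |y i| ≤ R) (h0 : (0 : P2) ∈ A) (hx : 0 < x) :
    Nat.card ↑(A ∩ x⁻¹ • ((Submodule.span ℤ (Set.range (Pi.basisFun ℝ (Fin 2))) : Submodule ℤ P2) : Set P2)) =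
      (W A x).ncard + 1 := by
  have h1 : A ∩ x⁻¹ • ((Submodule.span ℤ (Set.range (Pi.basisFun ℝ (Fin 2))) : Submodule ℤ P2) : Set P2) =
      (fun v : ℤ × ℤ => x⁻¹ • iv v) '' (insert 0 (W A x)) := by
    ext y
    constructor
    · rintro ⟨h1, h2⟩
      rw [Set.mem_smul_set] at h2
      obtain ⟨l, hl, rfl⟩ := h2
      obtain ⟨v, rfl⟩ := (mem_L l).1 hl
      refine ⟨v, ?_, rfl⟩
      by_cases h : v = 0
      · exact Or.inl h
      · exact Or.inr ⟨h, h1⟩
    · rintro ⟨v, hv, rfl⟩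
      refine ⟨?_, ?_⟩
      · rcases hv with h | h
        · subst h
          simpa [iv_zero] using h0
        · exact h.2
      · exact Set.smul_mem_smul_set ((mem_L _).2 ⟨v, rfl⟩)
  rw [h1, Nat.card_coe_set_eq, Set.ncard_image_of_injective, Set.ncard_insert_of_notMem _ (W_fin hA hx)]
  · exact fun h => h.1 rfl
  · intro v w h
    have h2 : x⁻¹ ≠ 0 := inv_ne_zero hx.ne'
    exact iv_inj (smul_right_injective P2 h2 h)

theorem W_tendsto {A : Set P2} (hc : Convex ℝ A) (h0 : (0 : P2) ∈ A) (hb : Bornology.IsBounded A)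
    (hm : MeasurableSet A) : Tendsto (fun x : ℝ => ((W A x).ncard : ℝ) / x ^ 2) atTop (𝓝 (volume.real A)) := by
  obtain ⟨R, hR⟩ := hb.subset_closedBall 0
  have hA : ∀ y ∈ A, ∀ i, |y i| ≤ R := by
    intro y hy i
    have h1 := hR hy
    rw [Metric.mem_closedBall, dist_zero_right] at h1
    exact (norm_le_pi_norm y i).trans h1
  have h1 := tendsto_card_div_pow_atTop_volume' A hb hm (hc.addHaar_frontier volume) (by
    intro x y hx hxy
    rintro _ ⟨z, hz, rfl⟩
    have hy : 0 < y := by linarith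
    refine ⟨(x / y) • z, ?_, ?_⟩
    · have h2 := hc h0 hz (a := 1 - x / y) (b := x / y) (by
        rw [sub_nonneg, div_le_one hy]
        exact hxy) (by positivity) (by ring)
      simpa using h2
    · simp only
      rw [smul_smul]
      congr 1
      field_simp)
  have h2 : Tendsto (fun x : ℝ => 1 / x ^ 2) atTop (𝓝 0) := by
    have := (tendsto_pow_atTop (α := ℝ) (n := 2) (by norm_num)).inv_tendsto_atTop
    refine this.congr fun x => ?_
    simp
  have h3 := h1.sub h2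
  rw [sub_zero] at h3
  refine h3.congr' ?_
  filter_upwards [eventually_gt_atTop 0] with x hx
  rw [card_eq hA h0 hx, Fintype.card_fin]
  push_cast
  ring

/-! ### the primitive points -/

theorem tsum_moebius : ∑' d : ℕ, (ArithmeticFunction.moebius d : ℝ) / (d : ℝ) ^ 2 = 6 / Real.pi ^ 2 := by
  have h1 := ArithmeticFunction.LSeries_zeta_mul_Lseries_moebius (s := 2) (by norm_num)
  rw [ArithmeticFunction.LSeries_zeta_eq_riemannZeta (by norm_num), riemannZeta_two] at h1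
  have h2 : LSeries (fun n => ((ArithmeticFunction.moebius n : ℤ) : ℂ)) 2 =
      ((∑' d : ℕ, (ArithmeticFunction.moebius d : ℝ) / (d : ℝ) ^ 2 : ℝ) : ℂ) := by
    rw [LSeries, Complex.ofReal_tsum]
    refine tsum_congr fun n => ?_
    rw [LSeries.term_def]
    split_ifs with h
    · simp [h]
    · rw [Complex.cpow_ofNat]
      push_cast
      rfl
  have hpi : (Real.pi : ℂ) ≠ 0 := by exact_mod_cast Real.pi_ne_zero
  have h3 : ((∑' d : ℕ, (ArithmeticFunction.moebius d : ℝ) / (d : ℝ) ^ 2 : ℝ) : ℂ) = ((6 / Real.pi ^ 2 : ℝ) : ℂ) := by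
    rw [← h2]
    push_cast
    field_simp at h1 ⊢
    rw [← h1]
  exact_mod_cast h3

theorem sum_moebius {g n : ℕ} (hg : g ≠ 0) (hn : g ≤ n) :
    ∑ d ∈ Finset.range (n + 1), (if d ∣ g then ArithmeticFunction.moebius d else 0) = if g = 1 then 1 else 0 := by
  have h1 : ∑ d ∈ g.divisors, ArithmeticFunction.moebius d = if g = 1 then 1 else 0 := by
    have h2 := congrFun (congrArg DFunLike.coe ArithmeticFunction.coe_zeta_mul_moebius) g
    rw [ArithmeticFunction.coe_zeta_mul_apply, ArithmeticFunction.one_apply] at h2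
    exact h2
  rw [← h1, ← Finset.sum_filter]
  apply Finset.sum_congr _ fun _ _ => rfl
  ext d
  rw [Finset.mem_filter, Finset.mem_range, Nat.mem_divisors]
  constructor
  · rintro ⟨_, h⟩
    exact ⟨h, hg⟩
  · rintro ⟨h, _⟩
    refine ⟨?_, h⟩
    have := Nat.le_of_dvd (by omega) h
    omega

theorem W_div {A : Set P2} {x : ℝ} {d : ℕ} (hd : 1 ≤ d) :
    {w ∈ W A x | d ∣ Int.gcd w.1 w.2}.ncard = (W A (x / d)).ncard := by
  have hd0 : (d : ℝ) ≠ 0 := by
    have : 0 < d := by omega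
    exact_mod_cast this.ne'
  have hdz : (d : ℤ) ≠ 0 := by omega
  have h1 : {w ∈ W A x | d ∣ Int.gcd w.1 w.2} = (fun v : ℤ × ℤ => ((d : ℤ) * v.1, (d : ℤ) * v.2)) '' W A (x / d) := by
    ext w
    have hiv : ∀ v : ℤ × ℤ, x⁻¹ • iv ((d : ℤ) * v.1, (d : ℤ) * v.2) = (x / d)⁻¹ • iv v := by
      intro v
      unfold iv
      funext i
      fin_cases i <;> simp <;> ring
    constructor
    · rintro ⟨⟨h1, h2⟩, h3⟩
      have h4 : (d : ℤ) ∣ w.1 := (Int.natCast_dvd_natCast.2 h3).trans (Int.gcd_dvd_left _ _)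
      have h5 : (d : ℤ) ∣ w.2 := (Int.natCast_dvd_natCast.2 h3).trans (Int.gcd_dvd_right _ _)
      obtain ⟨a, ha⟩ := h4
      obtain ⟨b, hb⟩ := h5
      refine ⟨(a, b), ⟨?_, ?_⟩, ?_⟩
      · rintro h
        have h6 : a = 0 := congrArg Prod.fst h
        have h7 : b = 0 := congrArg Prod.snd h
        apply h1
        apply Prod.ext
        · rw [ha, h6, mul_zero]
          rfl
        · rw [hb, h7, mul_zero]
          rfl
      · rw [← hiv]
        simp only
        rw [← ha, ← hb]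
        exact h2
      · simp only
        rw [← ha, ← hb]
    · rintro ⟨v, ⟨h1, h2⟩, rfl⟩
      refine ⟨⟨?_, ?_⟩, ?_⟩
      · intro h
        have h6 : (d : ℤ) * v.1 = 0 := congrArg Prod.fst h
        have h7 : (d : ℤ) * v.2 = 0 := congrArg Prod.snd h
        apply h1
        apply Prod.ext
        · exact (mul_eq_zero.1 h6).resolve_left hdz
        · exact (mul_eq_zero.1 h7).resolve_left hdz
      · rw [hiv]
        exact h2
      · exact Int.dvd_gcd (Dvd.intro _ rfl) (Dvd.intro _ rfl)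
  rw [h1]
  apply Set.ncard_image_of_injective
  intro v w h
  simp only [Prod.mk.injEq] at h
  apply Prod.ext
  · exact mul_left_cancel₀ hdz h.1
  · exact mul_left_cancel₀ hdz h.2

theorem Pr_card {A : Set P2} {R x : ℝ} (hA : ∀ y ∈ A, ∀ i, |y i| ≤ R) (hx : 0 < x) :
    ((Pr A x).ncard : ℝ) = ∑' d : ℕ, (ArithmeticFunction.moebius d : ℝ) * ((W A (x / d)).ncard : ℝ) := by
  classical
  obtain ⟨F, hF⟩ : ∃ F : Finset (ℤ × ℤ), (F : Set (ℤ × ℤ)) = W A x := (W_fin hA hx).exists_finset_coe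
  have hFm : ∀ w, w ∈ F ↔ w ∈ W A x := fun w => by rw [← hF]; rfl
  have hg0 : ∀ w ∈ F, Int.gcd w.1 w.2 ≠ 0 := by
    intro w hw h
    rw [Int.gcd_eq_zero_iff] at h
    exact ((hFm w).1 hw).1 (Prod.ext h.1 h.2)
  obtain ⟨n, hn⟩ : ∃ n : ℕ, ∀ w ∈ F, Int.gcd w.1 w.2 ≤ n := ⟨F.sup fun w => Int.gcd w.1 w.2, fun w hw =>
    Finset.le_sup (f := fun w : ℤ × ℤ => Int.gcd w.1 w.2) hw⟩
  have h1 : (Pr A x).ncard = (F.filter fun w => Int.gcd w.1 w.2 = 1).card := by
    rw [← Set.ncard_coe_finset]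
    congr 1
    ext w
    rw [Finset.coe_filter, Set.mem_ofPred_eq, hFm]
    constructor
    · intro h
      exact ⟨Pr_sub_W A x h, Int.isCoprime_iff_gcd_eq_one.1 h.1⟩
    · rintro ⟨h, h'⟩
      exact ⟨Int.isCoprime_iff_gcd_eq_one.2 h', h.2⟩
  have h2 : ∀ d : ℕ, 1 ≤ d → (W A (x / d)).ncard = (F.filter fun w => d ∣ Int.gcd w.1 w.2).card := by
    intro d hd
    rw [← W_div hd, ← Set.ncard_coe_finset]
    congr 1
    ext w
    simp only [Finset.coe_filter, Set.mem_ofPred_eq, hFm]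
  have h3 : ∀ d : ℕ, d ∉ Finset.range (n + 1) → (ArithmeticFunction.moebius d : ℝ) * ((W A (x / d)).ncard : ℝ) = 0 := by
    intro d hd
    rw [Finset.mem_range] at hd
    have h4 : (F.filter fun w => d ∣ Int.gcd w.1 w.2) = ∅ := by
      rw [Finset.filter_eq_empty_iff]
      intro w hw h
      have h5 := Nat.le_of_dvd (Nat.pos_of_ne_zero (hg0 w hw)) h
      have h6 := hn w hw
      omega
    rw [h2 d (by omega), h4]
    simp
  rw [tsum_eq_sum h3, h1, Finset.card_filter]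
  push_cast
  have h4 : ∀ d ∈ Finset.range (n + 1), (ArithmeticFunction.moebius d : ℝ) * ((W A (x / d)).ncard : ℝ) =
      ∑ w ∈ F, ((if d ∣ Int.gcd w.1 w.2 then ArithmeticFunction.moebius d else 0 : ℤ) : ℝ) := by
    intro d _
    rcases Nat.eq_zero_or_pos d with h | h
    · subst h
      simp
    · rw [h2 d h, Finset.card_filter]
      push_cast
      rw [Finset.mul_sum]
      refine Finset.sum_congr rfl fun w _ => ?_
      split_ifs <;> simp
  rw [Finset.sum_congr rfl h4, Finset.sum_comm]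
  refine Finset.sum_congr rfl fun w hw => ?_
  have h5 := sum_moebius (hg0 w hw) (hn w hw)
  have h6 : ((∑ d ∈ Finset.range (n + 1), (if d ∣ Int.gcd w.1 w.2 then ArithmeticFunction.moebius d else 0) : ℤ) : ℝ) =
      ((if Int.gcd w.1 w.2 = 1 then 1 else 0 : ℤ) : ℝ) := by rw [h5]
  push_cast at h6 ⊢
  rw [h6]

theorem Pr_tendsto {A : Set P2} (hc : Convex ℝ A) (h0 : (0 : P2) ∈ A) (hb : Bornology.IsBounded A)
    (hm : MeasurableSet A) :
    Tendsto (fun x : ℝ => ((Pr A x).ncard : ℝ) / x ^ 2) atTop (𝓝 (volume.real A * (6 / Real.pi ^ 2))) := by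
  obtain ⟨R₀, hR₀⟩ := hb.subset_closedBall 0
  obtain ⟨R, hRdef⟩ : ∃ R : ℝ, R = max R₀ 0 := ⟨_, rfl⟩
  have hR : 0 ≤ R := by
    rw [hRdef]
    exact le_max_right _ _
  have hA : ∀ y ∈ A, ∀ i, |y i| ≤ R := by
    intro y hy i
    have h1 := hR₀ hy
    rw [Metric.mem_closedBall, dist_zero_right] at h1
    exact (norm_le_pi_norm y i).trans (h1.trans (by rw [hRdef]; exact le_max_left _ _))
  have hW := W_tendsto hc h0 hb hm
  rw [← tsum_moebius, ← tsum_mul_left]
  have h1 : Tendsto (fun x : ℝ => ∑' d : ℕ, (ArithmeticFunction.moebius d : ℝ) * (((W A (x / d)).ncard : ℝ) / x ^ 2))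
      atTop (𝓝 (∑' d : ℕ, volume.real A * ((ArithmeticFunction.moebius d : ℝ) / (d : ℝ) ^ 2))) := by
    refine tendsto_tsum_of_dominated_convergence (bound := fun d : ℕ => 9 * R ^ 2 * (1 / (d : ℝ) ^ 2)) ?_ ?_ ?_
    · exact (Real.summable_one_div_nat_pow.2 (by norm_num)).mul_left _
    · intro d
      rcases Nat.eq_zero_or_pos d with h | h
      · subst h
        simp
      · have hd : (0 : ℝ) < d := by exact_mod_cast h
        have h2 : Tendsto (fun x : ℝ => x / d) atTop atTop := tendsto_id.atTop_div_const hd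
        have h3 := (hW.comp h2).mul_const (1 / (d : ℝ) ^ 2)
        have h4 := h3.const_mul (ArithmeticFunction.moebius d : ℝ)
        have h5 : (ArithmeticFunction.moebius d : ℝ) * (volume.real A * (1 / (d : ℝ) ^ 2)) =
            volume.real A * ((ArithmeticFunction.moebius d : ℝ) / (d : ℝ) ^ 2) := by ring
        rw [h5] at h4
        refine h4.congr' ?_
        filter_upwards [eventually_gt_atTop 0] with x hx
        simp only [Function.comp]
        congr 1
        field_simp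
    · filter_upwards [eventually_gt_atTop 0] with x hx
      intro d
      rcases Nat.eq_zero_or_pos d with h | h
      · subst h
        simp
      · have hd : (0 : ℝ) < d := by exact_mod_cast h
        have h2 := W_card_le hR hA (show 0 < x / d by positivity)
        have h3 : |(ArithmeticFunction.moebius d : ℝ)| ≤ 1 := by
          have := ArithmeticFunction.abs_moebius_le_one (n := d)
          exact_mod_cast this
        rw [Real.norm_eq_abs, abs_mul, abs_of_nonneg (show 0 ≤ ((W A (x / d)).ncard : ℝ) / x ^ 2 by positivity)]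
        calc |(ArithmeticFunction.moebius d : ℝ)| * (((W A (x / d)).ncard : ℝ) / x ^ 2)
            ≤ 1 * ((9 * R ^ 2 * (x / d) ^ 2) / x ^ 2) := by gcongr
          _ = 9 * R ^ 2 * (1 / (d : ℝ) ^ 2) := by field_simp
  refine h1.congr' ?_
  filter_upwards [eventually_gt_atTop 0] with x hx
  rw [Pr_card hA hx, ← tsum_div_const]
  refine tsum_congr fun d => ?_
  ring

/-! ### the mean value -/

/-- the first vector -/
noncomputable def tv (x : ℝ) (a : ℕ) : P2 := x⁻¹ • iv (1, (a : ℤ))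

/-- the second vector -/
noncomputable def tw (x : ℝ) (p : ℕ) : P2 := x⁻¹ • iv (0, (p : ℤ))

theorem det_tv (x : ℝ) (a p : ℕ) : det2 (tv x a) (tw x p) = p * (x⁻¹) ^ 2 := by
  unfold det2 tv tw iv
  simp
  ring

theorem comb (x : ℝ) (a p : ℕ) (v : ℤ × ℤ) :
    (v.1 : ℝ) • tv x a + (v.2 : ℝ) • tw x p = x⁻¹ • iv (v.1, (a : ℤ) * v.1 + (p : ℤ) * v.2) := by
  unfold tv tw iv
  funext i
  fin_cases i
  · simp
    ring
  · simp
    ring

/-- the sum over the slopes -/
theorem sum_prim {A : Set P2} {R x : ℝ} (hA : ∀ y ∈ A, ∀ i, |y i| ≤ R) (hx : 0 < x) {p : ℕ} (hp : p.Prime)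
    (hRx : R * x < p) :
    (∀ a : ℕ, (prim (tv x a) (tw x p) A).Finite) ∧
      ∑ a ∈ Finset.range p, (prim (tv x a) (tw x p) A).ncard ≤ (Pr A x).ncard := by
  classical
  have hpz : Prime (p : ℤ) := Nat.prime_iff_prime_int.1 hp
  have hp0 : (p : ℤ) ≠ 0 := hpz.ne_zero
  have hpR : (0 : ℝ) < p := by exact_mod_cast hp.pos
  obtain ⟨φ, hφ⟩ : ∃ φ : ℕ → ℤ × ℤ → ℤ × ℤ, φ = fun (a : ℕ) (v : ℤ × ℤ) => (v.1, (a : ℤ) * v.1 + (p : ℤ) * v.2) := ⟨_, rfl⟩
  have hinj : ∀ a, Function.Injective (φ a) := by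
    intro a v w h
    rw [hφ] at h
    simp only [Prod.mk.injEq] at h
    obtain ⟨h1, h2⟩ := h
    rw [h1] at h2
    exact Prod.ext h1 (mul_left_cancel₀ hp0 (add_left_cancel h2))
  have hmem : ∀ a, ∀ v ∈ prim (tv x a) (tw x p) A, ¬ (p : ℤ) ∣ v.1 ∧ φ a v ∈ Pr A x := by
    rintro a v ⟨h1, h2⟩
    rw [comb] at h2
    have h3 := bd_of_mem hA hx h2
    simp only at h3
    have h4 : |v.1| < (p : ℤ) := by
      have : |(v.1 : ℝ)| < p := by linarith [h3.1]
      exact_mod_cast this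
    have h5 : v.1 ≠ 0 := by
      intro h5
      rw [h5, isCoprime_zero_left, Int.isUnit_iff] at h1
      have h6 := h3.2
      rw [h5, mul_zero, zero_add] at h6
      have h7 : |(((p : ℤ) * v.2 : ℤ) : ℝ)| = p := by
        push_cast
        rw [abs_mul, Nat.abs_cast]
        rcases h1 with h | h <;> rw [h] <;> simp
      rw [h7] at h6
      linarith
    have h6 : ¬ (p : ℤ) ∣ v.1 := fun h => h5 (Int.eq_zero_of_abs_lt_dvd h h4)
    refine ⟨h6, ?_, ?_⟩
    · rw [hφ]
      simp only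
      have h7 : IsCoprime v.1 (p : ℤ) := ((hpz.coprime_iff_not_dvd).2 h6).symm
      obtain ⟨u, w, huw⟩ := h7.mul_right h1
      exact ⟨u - w * a, w, by linear_combination huw⟩
    · rw [hφ]
      exact h2
  have hfin : ∀ a, (prim (tv x a) (tw x p) A).Finite := by
    intro a
    refine Set.Finite.of_finite_image (f := φ a) ((Pr_fin hA hx).subset ?_) (hinj a).injOn
    rintro _ ⟨v, hv, rfl⟩
    exact (hmem a v hv).2
  refine ⟨hfin, ?_⟩
  have h1 : ∀ a, (prim (tv x a) (tw x p) A).ncard = ((hfin a).toFinset.image (φ a)).card := by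
    intro a
    rw [Finset.card_image_of_injective _ (hinj a), Set.ncard_eq_toFinset_card _ (hfin a)]
  rw [Finset.sum_congr rfl fun a _ => h1 a, ← Finset.card_biUnion, Set.ncard_eq_toFinset_card _ (Pr_fin hA hx)]
  · apply Finset.card_le_card
    intro w hw
    rw [Finset.mem_biUnion] at hw
    obtain ⟨a, _, hw⟩ := hw
    rw [Finset.mem_image] at hw
    obtain ⟨v, hv, rfl⟩ := hw
    rw [Set.Finite.mem_toFinset] at hv ⊢
    exact (hmem a v hv).2
  · intro a ha b hb hab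
    rw [Finset.mem_coe, Finset.mem_range] at ha hb
    rw [Function.onFun, Finset.disjoint_left]
    intro z hz hz'
    rw [Finset.mem_image] at hz hz'
    obtain ⟨v, hv, hvz⟩ := hz
    obtain ⟨w, hw, hwz⟩ := hz'
    rw [Set.Finite.mem_toFinset] at hv hw
    rw [← hwz, hφ] at hvz
    simp only [Prod.mk.injEq] at hvz
    obtain ⟨h2, h3⟩ := hvz
    have h4 := (hmem a v hv).1
    rw [← h2] at h3
    have h5 : (p : ℤ) ∣ ((a : ℤ) - b) * v.1 := ⟨w.2 - v.2, by linear_combination h3⟩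
    rcases hpz.dvd_or_dvd h5 with h6 | h6
    · have h7 : (a : ℤ) - b = 0 := Int.eq_zero_of_abs_lt_dvd h6 (by
        rw [abs_lt]
        constructor <;> omega)
      apply hab
      omega
    · exact h4 h6

/-- **The mean value.** -/
theorem mean_value {N H : Set P2} (hN : Convex ℝ N) (hH : Convex ℝ H) (h0N : (0 : P2) ∈ N) (h0H : (0 : P2) ∈ H)
    (hNb : Bornology.IsBounded N) (hHb : Bornology.IsBounded H) (hNm : MeasurableSet N) (hHm : MeasurableSet H)
    {D : ℝ} (hD : ((volume N).toReal + 2 * (volume H).toReal) / Real.pi ^ 2 < D) :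
    ∃ t₁ t₂ : P2, det2 t₁ t₂ = D ∧ (prim t₁ t₂ N).Finite ∧
      (prim t₁ t₂ N).ncard + 2 * (prim t₁ t₂ H).ncard < 6 := by
  have hpi := Real.pi_pos
  have hD0 : 0 < D := lt_of_le_of_lt (by positivity) hD
  obtain ⟨R₁, hR₁⟩ := hNb.subset_closedBall 0
  obtain ⟨R₂, hR₂⟩ := hHb.subset_closedBall 0
  obtain ⟨R, hRdef⟩ : ∃ R : ℝ, R = max R₁ R₂ := ⟨_, rfl⟩
  have hNR : ∀ y ∈ N, ∀ i, |y i| ≤ R := by
    intro y hy i
    have h1 := hR₁ hy
    rw [Metric.mem_closedBall, dist_zero_right] at h1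
    exact (norm_le_pi_norm y i).trans (h1.trans (by rw [hRdef]; exact le_max_left _ _))
  have hHR : ∀ y ∈ H, ∀ i, |y i| ≤ R := by
    intro y hy i
    have h1 := hR₂ hy
    rw [Metric.mem_closedBall, dist_zero_right] at h1
    exact (norm_le_pi_norm y i).trans (h1.trans (by rw [hRdef]; exact le_max_right _ _))
  have h1 := (Pr_tendsto hN h0N hNb hNm).add ((Pr_tendsto hH h0H hHb hHm).const_mul 2)
  have h2 : volume.real N * (6 / Real.pi ^ 2) + 2 * (volume.real H * (6 / Real.pi ^ 2)) < 6 * D := by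
    have h3 : volume.real N * (6 / Real.pi ^ 2) + 2 * (volume.real H * (6 / Real.pi ^ 2)) =
        6 * (((volume N).toReal + 2 * (volume H).toReal) / Real.pi ^ 2) := by
      unfold Measure.real
      ring
    rw [h3]
    linarith
  obtain ⟨X, hX⟩ := eventually_atTop.1 ((h1.eventually (gt_mem_nhds h2)).and (eventually_gt_atTop (max (R / D) 0)))
  obtain ⟨p, hpX, hp⟩ := Nat.exists_infinite_primes (⌈D * (|X|) ^ 2⌉₊)
  have hpR : (0 : ℝ) < p := by exact_mod_cast hp.pos
  obtain ⟨x, hxdef⟩ : ∃ x : ℝ, x = Real.sqrt (p / D) := ⟨_, rfl⟩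
  have hx0 : 0 < x := by
    rw [hxdef]
    exact Real.sqrt_pos.2 (by positivity)
  have hx2 : D * x ^ 2 = p := by
    rw [hxdef, Real.sq_sqrt (by positivity)]
    field_simp
  have hXx : X ≤ x := by
    have h3 : D * |X| ^ 2 ≤ p := (Nat.le_ceil _).trans (by exact_mod_cast hpX)
    have h4 : |X| ≤ x := by
      rw [hxdef]
      apply Real.le_sqrt_of_sq_le
      rw [le_div_iff₀ hD0]
      linarith
    exact (le_abs_self X).trans h4
  obtain ⟨h3, h4⟩ := hX x hXx
  have hRx : R * x < p := by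
    have h5 : R / D < x := (le_max_left _ _).trans_lt h4
    rw [div_lt_iff₀ hD0] at h5
    rw [← hx2]
    nlinarith
  obtain ⟨hfN, hsN⟩ := sum_prim hNR hx0 hp hRx
  obtain ⟨_, hsH⟩ := sum_prim hHR hx0 hp hRx
  have h5 : ((Pr N x).ncard : ℝ) + 2 * ((Pr H x).ncard : ℝ) < 6 * p := by
    have h6 : ((Pr N x).ncard : ℝ) / x ^ 2 + 2 * (((Pr H x).ncard : ℝ) / x ^ 2) =
        (((Pr N x).ncard : ℝ) + 2 * ((Pr H x).ncard : ℝ)) / x ^ 2 := by ring
    rw [h6, div_lt_iff₀ (by positivity)] at h3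
    linarith
  have h6 : (Pr N x).ncard + 2 * (Pr H x).ncard < 6 * p := by exact_mod_cast h5
  have h7 : ∑ a ∈ Finset.range p, ((prim (tv x a) (tw x p) N).ncard + 2 * (prim (tv x a) (tw x p) H).ncard) <
      ∑ _a ∈ Finset.range p, 6 := by
    rw [Finset.sum_add_distrib, ← Finset.mul_sum, Finset.sum_const, Finset.card_range, smul_eq_mul]
    omega
  obtain ⟨a, _, ha⟩ := Finset.exists_lt_of_sum_lt h7
  refine ⟨tv x a, tw x p, ?_, hfN a, ha⟩
  rw [det_tv, ← hx2]
  field_simp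

end Pool.Agent.Helper4.SY
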